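import Pool.Agent.H.MP_3028b5.A

set_option autoImplicit false

namespace Pool.Agent.Results.MP_3028b5_gt.NoCopy

def RN (K : Type) [TopologicalSpace K] : Prop :=
  ∃ d : K → K → ℝ, (∀ x y, d x y = 0 ↔ x = y) ∧ (∀ x y, d x y = d y x) ∧
    (∀ x y z, d x z ≤ d x y + d y z) ∧ LowerSemicontinuous (fun p : K × K => d p.1 p.2) ∧
    ∀ L : Set K, L.Nonempty → ∀ ε : ℝ, 0 < ε → ∃ U : Set K, IsOpen U ∧ (U ∩ L).Nonempty ∧
      ∀ x ∈ U ∩ L, ∀ y ∈ U ∩ L, d x y < ε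

def HasDenseSigma (K : Type) [TopologicalSpace K] : Prop :=
  ∃ (Γ : Type) (h : K → Γ → ℝ),
    Topology.IsEmbedding h ∧ Dense (h ⁻¹' {x : Γ → ℝ | {γ : Γ | x γ ≠ 0}.Countable})

theorem result (K : Type) [TopologicalSpace K] [CompactSpace K] [T2Space K] (h1 : RN K)
    (h2 : HasDenseSigma K) :
    ¬ ∃ f : Set.Iic (Cardinal.aleph.{0} 2).ord → K, Topology.IsEmbedding f := by
  obtain ⟨d, d1, d2, d3, d4, d5⟩ := h1
  obtain ⟨Γ, h, e1, e2⟩ := h2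
  rintro ⟨f, hf⟩
  refine H.MP_3028b5.nocopy e1.continuous e1.injective (H.MP_3028b5.sup1 e1.continuous
    e1.injective e2 d (fun x y e => lt_of_le_of_ne ?_ fun k => e ((d1 x y).1 k.symm)) d4 d5)
    hf.continuous hf.injective
  have := d3 x y x
  rw [(d1 x x).2 rfl, d2 y x] at this
  linarith

end Pool.Agent.Results.MP_3028b5_gt.NoCopy
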